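import Pool.Agent.Helper37.SY.Spec

/-!
# SY, part TAY: the expansion of the moments of the volume of a random simplex
-/

set_option autoImplicit false

noncomputable section

open MeasureTheory Set Filter Topology
open scoped ENNReal

namespace Pool.Agent.Helper80.SY.TAY

open Pool.Agent.Helper77.LM Helper63.LP Helper37.SY

variable {n : ℕ}

/-- all the points in `D` -/
def PD (D : Set (Fin n → ℝ)) : Set (Fin (n + 1) → Fin n → ℝ) := {x | ∀ i, x i ∈ D}

theorem PD_compact : IsCompact (PD (Dl n)) := by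
  have : PD (Dl n) = Set.pi univ (fun _ : Fin (n + 1) => Dl n) := by
    ext x; simp [PD]
  rw [this]
  exact isCompact_univ_pi fun _ => isCompact_Dl

theorem PD_meas {m : ℕ} {K : Set (Fin n → ℝ)} (hK : MeasurableSet K) :
    MeasurableSet {x : Fin m → Fin n → ℝ | ∀ i, x i ∈ K} := by
  have : {x : Fin m → Fin n → ℝ | ∀ i, x i ∈ K} = ⋂ i, {x | x i ∈ K} := by
    ext x; simp
  rw [this]
  exact MeasurableSet.iInter fun i => (measurable_pi_apply i) hK

/-- the point with the number `i` in `B` -/
def SI (B : Set (Fin n → ℝ)) (i : Fin (n + 1)) : Set (Fin (n + 1) → Fin n → ℝ) := {x | x i ∈ B}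

theorem SI_meas {B : Set (Fin n → ℝ)} (hB : MeasurableSet B) (i : Fin (n + 1)) :
    MeasurableSet (SI B i) := (measurable_pi_apply i) hB

theorem cons_eq (i : Fin (n + 1)) (x : Fin (n + 1) → Fin n → ℝ) :
    (Fin.cons (x i) (fun j => x (i.succAbove j)) : Fin (n + 1) → Fin n → ℝ) =
      fun j => x (i.cycleRange.symm j) := by
  funext j
  refine Fin.cases ?_ (fun k => ?_) j
  · rw [Fin.cons_zero, Fin.cycleRange_symm_zero]
  · rw [Fin.cons_succ, Fin.cycleRange_symm_succ]

theorem cont_cons : Continuous fun p : (Fin n → ℝ) × (Fin n → Fin n → ℝ) =>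
    (Fin.cons p.1 p.2 : Fin (n + 1) → Fin n → ℝ) := by
  apply continuous_pi
  intro i
  refine Fin.cases ?_ (fun j => ?_) i
  · simpa using continuous_fst
  · simp only [Fin.cons_succ]
    exact (continuous_apply j).comp continuous_snd

/-- Fubini and symmetry -/
theorem int_SI (hW : S_WPR) {q : ℝ} (hq : 1 ≤ q) {B : Set (Fin n → ℝ)} (hB : MeasurableSet B)
    (hBD : B ⊆ Dl n) (i : Fin (n + 1)) :
    ∫ x in PD (Dl n) ∩ SI B i, W q x = ∫ u in B, F q u := by
  obtain ⟨hc, hp, -, -⟩ := hW n q hq
  have hmp := volume_preserving_piFinSuccAbove (fun _ : Fin (n + 1) => (Fin n → ℝ)) i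
  set e := MeasurableEquiv.piFinSuccAbove (fun _ : Fin (n + 1) => (Fin n → ℝ)) i with he
  set T : Set ((Fin n → ℝ) × (Fin n → Fin n → ℝ)) := B ×ˢ {y | ∀ j, y j ∈ Dl n} with hT
  have hex : ∀ x, e x = (x i, fun j => x (i.succAbove j)) := fun x => rfl
  have h1 : PD (Dl n) ∩ SI B i = e ⁻¹' T := by
    ext x
    constructor
    · rintro ⟨h1, h2⟩
      exact ⟨h2, fun j => h1 _⟩
    · rintro ⟨h1, h2⟩
      refine ⟨fun k => ?_, h1⟩
      rcases Fin.eq_self_or_eq_succAbove i k with rfl | ⟨j, rfl⟩
      · exact hBD h1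
      · exact h2 j
  set g : (Fin n → ℝ) × (Fin n → Fin n → ℝ) → ℝ := fun p => W q (Fin.cons p.1 p.2) with hg
  have h2 : ∀ x, g (e x) = W q x := by
    intro x
    rw [hex, hg]
    show W q (Fin.cons (x i) (fun j => x (i.succAbove j))) = W q x
    rw [cons_eq]
    exact hp i.cycleRange.symm x
  have hgc : Continuous g := hc.comp cont_cons
  have hint : IntegrableOn g T (volume.prod volume) := by
    have h3 : IsCompact ((Dl n) ×ˢ {y : Fin n → Fin n → ℝ | ∀ j, y j ∈ Dl n}) := by
      refine isCompact_Dl.prod ?_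
      have : {y : Fin n → Fin n → ℝ | ∀ j, y j ∈ Dl n} = Set.pi univ (fun _ : Fin n => Dl n) := by
        ext x; simp
      rw [this]
      exact isCompact_univ_pi fun _ => isCompact_Dl
    have h4 : IntegrableOn g ((Dl n) ×ˢ {y : Fin n → Fin n → ℝ | ∀ j, y j ∈ Dl n})
        (volume : Measure ((Fin n → ℝ) × (Fin n → Fin n → ℝ))) :=
      hgc.continuousOn.integrableOn_compact h3
    exact h4.mono_set (prod_mono hBD le_rfl)
  have h5 := hmp.setIntegral_preimage_emb e.measurableEmbedding g T
  rw [h1]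
  calc ∫ x in e ⁻¹' T, W q x = ∫ x in e ⁻¹' T, g (e x) := by
        simp_rw [h2]
    _ = ∫ y in T, g y := h5
    _ = ∫ u in B, F q u := by
        rw [Measure.volume_eq_prod, hT, setIntegral_prod g hint]
        rfl

theorem vol_pair {B : Set (Fin n → ℝ)} (hB : MeasurableSet B) {i j : Fin (n + 1)} (hij : i ≠ j) :
    volume (PD (Dl n) ∩ (SI B i ∩ SI B j)) ≤ volume B ^ 2 * volume (Dl n) ^ (n - 1) := by
  classical
  have h1 : PD (Dl n) ∩ (SI B i ∩ SI B j) ⊆
      Set.pi univ (fun k : Fin (n + 1) => if k = i ∨ k = j then B else Dl n) := by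
    rintro x ⟨h1, h2, h3⟩ k -
    show x k ∈ (if k = i ∨ k = j then B else Dl n)
    split_ifs with h
    · rcases h with rfl | rfl
      · exact h2
      · exact h3
    · exact h1 k
  refine (measure_mono h1).trans (le_of_eq ?_)
  rw [volume_pi_pi]
  have h2 : ∀ k : Fin (n + 1), volume (if k = i ∨ k = j then B else Dl n) =
      if k = i ∨ k = j then volume B else volume (Dl n) := fun k => by split_ifs <;> rfl
  simp_rw [h2]
  rw [Finset.prod_ite, Finset.prod_const, Finset.prod_const]
  have h3 : (Finset.univ.filter fun k : Fin (n + 1) => k = i ∨ k = j) = {i, j} := by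
    ext k; simp
  have h4 : (Finset.univ.filter fun k : Fin (n + 1) => k = i ∨ k = j).card = 2 := by
    rw [h3, Finset.card_pair hij]
  have h5 := Finset.card_filter_add_card_filter_not (s := (Finset.univ : Finset (Fin (n + 1))))
    (fun k => k = i ∨ k = j)
  rw [Finset.card_univ, Fintype.card_fin, h4] at h5
  rw [h4]
  congr 2
  omega

theorem main (hW : S_WPR) : S_TAY := by
  intro n q hq
  classical
  obtain ⟨hc, hp, -, -⟩ := hW n q hq
  have hW0 : ∀ x : Fin (n + 1) → Fin n → ℝ, 0 ≤ W q x := fun x => Real.rpow_nonneg (abs_nonneg _) q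
  obtain ⟨M0, hM0⟩ := (PD_compact (n := n)).exists_bound_of_continuousOn hc.continuousOn
  set M : ℝ := max M0 0 with hM
  have hMb : ∀ x ∈ PD (Dl n), ‖W q x‖ ≤ M := fun x hx => (hM0 x hx).trans (le_max_left _ _)
  have hMn : 0 ≤ M := le_max_right _ _
  set v : ℝ := (volume (Dl n)).toReal with hv
  refine ⟨((n : ℝ) + 1) * (n + 1) * (M * v ^ (n - 1)) + 1, by positivity, ?_⟩
  intro K hK hKD
  set B : Set (Fin n → ℝ) := Dl n \ K with hB
  have hDm : MeasurableSet (Dl n) := isClosed_Dl.measurableSet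
  have hBm : MeasurableSet B := hDm.diff hK
  have hBD : B ⊆ Dl n := diff_subset
  set μ : Measure (Fin (n + 1) → Fin n → ℝ) := volume.restrict (PD (Dl n)) with hμ
  have hWi : Integrable (W q) μ := hc.continuousOn.integrableOn_compact PD_compact
  have hPm : MeasurableSet (PD (Dl n)) := PD_meas hDm
  -- the three integrals
  have e0 : Gq q (Dl n) = ∫ x, W q x ∂μ := rfl
  have hKm : MeasurableSet (PD K) := PD_meas hK
  have e1 : Gq q K = ∫ x, (PD K).indicator (W q) x ∂μ := by
    rw [integral_indicator hKm, hμ, Measure.restrict_restrict hKm]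
    have : PD K ∩ PD (Dl n) = PD K := inter_eq_left.2 fun x hx i => hKD (hx i)
    rw [this]
    rfl
  have e2 : ∀ i, ∫ x, (SI B i).indicator (W q) x ∂μ = ∫ u in B, F q u := by
    intro i
    rw [integral_indicator (SI_meas hBm i), hμ, Measure.restrict_restrict (SI_meas hBm i),
      inter_comm]
    exact int_SI hW hq hBm hBD i
  have hBf : volume B ≠ ⊤ := ((measure_mono hBD).trans_lt isCompact_Dl.measure_lt_top).ne
  have e3 : ∀ i j, i ≠ j → ∫ x, (SI B i ∩ SI B j).indicator (W q) x ∂μ ≤
      M * v ^ (n - 1) * (volume B).toReal ^ 2 := by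
    intro i j hij
    have hm : MeasurableSet (SI B i ∩ SI B j) := (SI_meas hBm i).inter (SI_meas hBm j)
    rw [integral_indicator hm, hμ, Measure.restrict_restrict hm, inter_comm]
    have hvol := vol_pair (n := n) hBm hij
    have hfin : volume B ^ 2 * volume (Dl n) ^ (n - 1) ≠ ⊤ :=
      ENNReal.mul_ne_top (ENNReal.pow_ne_top hBf) (ENNReal.pow_ne_top isCompact_Dl.measure_lt_top.ne)
    have h1 := norm_setIntegral_le_of_norm_le_const (μ := volume) (f := W q) (C := M)
      (s := PD (Dl n) ∩ (SI B i ∩ SI B j)) (lt_of_le_of_lt hvol hfin.lt_top)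
      (fun x hx => hMb x hx.1)
    have h2 : volume.real (PD (Dl n) ∩ (SI B i ∩ SI B j)) ≤
        (volume B).toReal ^ 2 * v ^ (n - 1) := by
      have := ENNReal.toReal_mono hfin hvol
      rwa [ENNReal.toReal_mul, ENNReal.toReal_pow, ENNReal.toReal_pow] at this
    calc ∫ x in PD (Dl n) ∩ (SI B i ∩ SI B j), W q x ≤
        ‖∫ x in PD (Dl n) ∩ (SI B i ∩ SI B j), W q x‖ := Real.le_norm_self _
      _ ≤ M * volume.real (PD (Dl n) ∩ (SI B i ∩ SI B j)) := h1
      _ ≤ M * ((volume B).toReal ^ 2 * v ^ (n - 1)) := mul_le_mul_of_nonneg_left h2 hMn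
      _ = _ := by ring
  -- pointwise
  have hpt : ∀ x ∈ PD (Dl n),
      W q x - ∑ i, (SI B i).indicator (W q) x ≤ (PD K).indicator (W q) x ∧
      (PD K).indicator (W q) x ≤ W q x - ∑ i, (SI B i).indicator (W q) x +
        ∑ i, ∑ j ∈ Finset.univ.erase i, (SI B i ∩ SI B j).indicator (W q) x := by
    intro x hx
    set b : Fin (n + 1) → ℝ := fun i => if x i ∈ B then 1 else 0 with hb
    have hb0 : ∀ i, 0 ≤ b i := fun i => by rw [hb]; dsimp only; split_ifs <;> norm_num
    have hbb : ∀ i, b i * b i = b i := fun i => by rw [hb]; dsimp only; split_ifs <;> norm_num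
    have h1 : ∀ i, (SI B i).indicator (W q) x = b i * W q x := by
      intro i
      by_cases h : x i ∈ B
      · rw [indicator_of_mem (show x ∈ SI B i from h)]
        simp [hb, h]
      · rw [indicator_of_notMem (show x ∉ SI B i from h)]
        simp [hb, h]
    have h2 : ∀ i j, (SI B i ∩ SI B j).indicator (W q) x = b i * b j * W q x := by
      intro i j
      by_cases h : x i ∈ B
      · by_cases h' : x j ∈ B
        · rw [indicator_of_mem (show x ∈ SI B i ∩ SI B j from ⟨h, h'⟩)]
          simp [hb, h, h']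
        · rw [indicator_of_notMem (show x ∉ SI B i ∩ SI B j from fun hh => h' hh.2)]
          simp [hb, h']
      · rw [indicator_of_notMem (show x ∉ SI B i ∩ SI B j from fun hh => h hh.1)]
        simp [hb, h]
    set t : ℝ := ∑ i, b i with ht
    have h3 : ∑ i, (SI B i).indicator (W q) x = t * W q x := by
      simp_rw [h1]
      rw [← Finset.sum_mul]
    have h4 : ∑ i, ∑ j ∈ Finset.univ.erase i, (SI B i ∩ SI B j).indicator (W q) x =
        (t * t - t) * W q x := by
      simp_rw [h2]
      have : ∀ i, ∑ j ∈ Finset.univ.erase i, b i * b j * W q x = (b i * t - b i) * W q x := by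
        intro i
        rw [Finset.sum_erase_eq_sub (Finset.mem_univ i), hbb, ← Finset.sum_mul, ← Finset.mul_sum]
        ring
      simp_rw [this]
      rw [← Finset.sum_mul, Finset.sum_sub_distrib, ← Finset.sum_mul]
    rw [h3, h4]
    have hw := hW0 x
    by_cases hxK : x ∈ PD K
    · rw [indicator_of_mem hxK]
      have ht0 : t = 0 := by
        rw [ht]
        refine Finset.sum_eq_zero fun i _ => ?_
        rw [hb]
        dsimp only
        rw [if_neg]
        exact fun h => h.2 (hxK i)
      rw [ht0]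
      constructor <;> simp
    · rw [indicator_of_notMem hxK]
      have ht1 : 1 ≤ t := by
        obtain ⟨i, hi⟩ : ∃ i, x i ∉ K := by
          by_contra hcon
          push Not at hcon
          exact hxK hcon
        have h5 : b i = 1 := by
          rw [hb]; dsimp only
          rw [if_pos ⟨hx i, hi⟩]
        rw [ht, ← h5]
        exact Finset.single_le_sum (fun k _ => hb0 k) (Finset.mem_univ i)
      constructor
      · nlinarith
      · nlinarith [mul_nonneg (sq_nonneg (1 - t)) hw]
  have hi1 : ∀ i, Integrable (fun x => (SI B i).indicator (W q) x) μ := fun i =>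
    hWi.indicator (SI_meas hBm i)
  have hi2 : ∀ i j, Integrable (fun x => (SI B i ∩ SI B j).indicator (W q) x) μ := fun i j =>
    hWi.indicator ((SI_meas hBm i).inter (SI_meas hBm j))
  have hs1 : Integrable (fun x => ∑ i, (SI B i).indicator (W q) x) μ :=
    integrable_finset_sum _ fun i _ => hi1 i
  have hs2 : Integrable (fun x => ∑ i, ∑ j ∈ Finset.univ.erase i,
      (SI B i ∩ SI B j).indicator (W q) x) μ :=
    integrable_finset_sum _ fun i _ => integrable_finset_sum _ fun j _ => hi2 i j
  have hiK : Integrable (fun x => (PD K).indicator (W q) x) μ := hWi.indicator hKm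
  have hS1 : ∫ x, ∑ i, (SI B i).indicator (W q) x ∂μ = ((n : ℝ) + 1) * ∫ u in B, F q u := by
    rw [integral_finset_sum _ fun i _ => hi1 i]
    simp_rw [e2]
    rw [Finset.sum_const, Finset.card_univ, Fintype.card_fin, nsmul_eq_mul]
    push_cast
    ring
  have hS2 : ∫ x, ∑ i, ∑ j ∈ Finset.univ.erase i, (SI B i ∩ SI B j).indicator (W q) x ∂μ ≤
      (((n : ℝ) + 1) * (n + 1) * (M * v ^ (n - 1)) + 1) * (volume B).toReal ^ 2 := by
    rw [integral_finset_sum _ fun i _ => integrable_finset_sum _ fun j _ => hi2 i j]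
    have h1 : ∀ i : Fin (n + 1), ∫ x, ∑ j ∈ Finset.univ.erase i,
        (SI B i ∩ SI B j).indicator (W q) x ∂μ ≤
        ((n : ℝ) + 1) * (M * v ^ (n - 1) * (volume B).toReal ^ 2) := by
      intro i
      rw [integral_finset_sum _ fun j _ => hi2 i j]
      refine (Finset.sum_le_sum fun j hj => e3 i j (Finset.ne_of_mem_erase hj).symm).trans ?_
      rw [Finset.sum_const, nsmul_eq_mul, Finset.card_erase_of_mem (Finset.mem_univ i),
        Finset.card_univ, Fintype.card_fin]
      refine mul_le_mul_of_nonneg_right ?_ (by positivity)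
      have : n + 1 - 1 = n := by omega
      rw [this]
      linarith
    refine (Finset.sum_le_sum fun i _ => h1 i).trans ?_
    rw [Finset.sum_const, nsmul_eq_mul, Finset.card_univ, Fintype.card_fin]
    push_cast
    nlinarith [sq_nonneg (volume B).toReal]
  have hae1 : (fun x => W q x - ∑ i, (SI B i).indicator (W q) x) ≤ᵐ[μ]
      fun x => (PD K).indicator (W q) x := by
    rw [Filter.EventuallyLE, hμ, ae_restrict_iff' hPm]
    exact Filter.Eventually.of_forall fun x hx => (hpt x hx).1
  have hae2 : (fun x => (PD K).indicator (W q) x) ≤ᵐ[μ]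
      fun x => W q x - ∑ i, (SI B i).indicator (W q) x +
        ∑ i, ∑ j ∈ Finset.univ.erase i, (SI B i ∩ SI B j).indicator (W q) x := by
    rw [Filter.EventuallyLE, hμ, ae_restrict_iff' hPm]
    exact Filter.Eventually.of_forall fun x hx => (hpt x hx).2
  have hd1 : Integrable (fun x => W q x - ∑ i, (SI B i).indicator (W q) x) μ := hWi.sub hs1
  have hd2 : Integrable (fun x => W q x - ∑ i, (SI B i).indicator (W q) x +
        ∑ i, ∑ j ∈ Finset.univ.erase i, (SI B i ∩ SI B j).indicator (W q) x) μ := hd1.add hs2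
  have h1 : ∫ x, (W q x - ∑ i, (SI B i).indicator (W q) x) ∂μ ≤
      ∫ x, (PD K).indicator (W q) x ∂μ := integral_mono_ae hd1 hiK hae1
  have h2 : ∫ x, (PD K).indicator (W q) x ∂μ ≤ ∫ x, (W q x - ∑ i, (SI B i).indicator (W q) x +
        ∑ i, ∑ j ∈ Finset.univ.erase i, (SI B i ∩ SI B j).indicator (W q) x) ∂μ :=
    integral_mono_ae hiK hd2 hae2
  have h3 : ∫ x, (W q x - ∑ i, (SI B i).indicator (W q) x) ∂μ =
      (∫ x, W q x ∂μ) - ((n : ℝ) + 1) * (∫ u in B, F q u) := by
    rw [integral_sub hWi hs1, hS1]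
  have h4 : ∫ x, (W q x - ∑ i, (SI B i).indicator (W q) x +
        ∑ i, ∑ j ∈ Finset.univ.erase i, (SI B i ∩ SI B j).indicator (W q) x) ∂μ =
      ((∫ x, W q x ∂μ) - ((n : ℝ) + 1) * (∫ u in B, F q u)) +
        ∫ x, ∑ i, ∑ j ∈ Finset.univ.erase i, (SI B i ∩ SI B j).indicator (W q) x ∂μ := by
    rw [integral_add hd1 hs2, h3]
  rw [e0, e1]
  rw [h3] at h1
  rw [h4] at h2
  exact ⟨h1, by linarith⟩

end Pool.Agent.Helper80.SY.TAY

end
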