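import Pool.Agent.Helper37.SY.Spec

/-!
# SY, part HOM: change of variables
-/

set_option autoImplicit false

noncomputable section

open MeasureTheory Set Filter Topology
open scoped ENNReal

namespace Pool.Agent.Helper80.SY.HOM

open Pool.Agent.Helper77.LM Helper63.LP Helper37.SY

variable {n : ℕ}

/-- the affine map -/
def Tm (A : Matrix (Fin n) (Fin n) ℝ) (c : Fin n → ℝ) (x : Fin n → ℝ) : Fin n → ℝ :=
  A.mulVec x + c

theorem Tm_cont (A : Matrix (Fin n) (Fin n) ℝ) (c : Fin n → ℝ) : Continuous (Tm A c) := by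
  unfold Tm
  fun_prop

theorem Tm_inj {A : Matrix (Fin n) (Fin n) ℝ} (hA : A.det ≠ 0) (c : Fin n → ℝ) :
    Function.Injective (Tm A c) := by
  intro x y hxy
  have h1 : A.mulVec x = A.mulVec y := add_right_cancel hxy
  exact Matrix.mulVec_injective_of_isUnit ((Matrix.isUnit_iff_isUnit_det A).2 hA.isUnit) h1

theorem Tm_map {A : Matrix (Fin n) (Fin n) ℝ} (hA : A.det ≠ 0) (c : Fin n → ℝ) :
    Measure.map (Tm A c) (volume : Measure (Fin n → ℝ)) =
      ENNReal.ofReal |A.det⁻¹| • (volume : Measure (Fin n → ℝ)) := by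
  have h1 : Tm A c = (fun x : Fin n → ℝ => x + c) ∘ (Matrix.toLin' A) := by
    funext x
    rfl
  have hm : Measurable (Matrix.toLin' A : (Fin n → ℝ) → Fin n → ℝ) :=
    (LinearMap.continuous_on_pi _).measurable
  rw [h1, ← Measure.map_map (measurable_add_const c) hm,
    Real.map_matrix_volume_pi_eq_smul_volume_pi hA, Measure.map_smul]
  congr 1
  exact map_add_right_eq_self volume c

/-- the product map -/
def TT (A : Matrix (Fin n) (Fin n) ℝ) (c : Fin n → ℝ) (x : Fin (n + 1) → Fin n → ℝ) :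
    Fin (n + 1) → Fin n → ℝ := fun i => Tm A c (x i)

theorem TT_cont (A : Matrix (Fin n) (Fin n) ℝ) (c : Fin n → ℝ) : Continuous (TT A c) :=
  continuous_pi fun i => (Tm_cont A c).comp (continuous_apply i)

theorem TT_inj {A : Matrix (Fin n) (Fin n) ℝ} (hA : A.det ≠ 0) (c : Fin n → ℝ) :
    Function.Injective (TT A c) := by
  intro x y hxy
  funext i
  exact Tm_inj hA c (congrFun hxy i)

theorem TT_emb {A : Matrix (Fin n) (Fin n) ℝ} (hA : A.det ≠ 0) (c : Fin n → ℝ) :
    MeasurableEmbedding (TT A c) := (TT_cont A c).measurableEmbedding (TT_inj hA c)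

theorem TT_map {A : Matrix (Fin n) (Fin n) ℝ} (hA : A.det ≠ 0) (c : Fin n → ℝ) :
    Measure.map (TT A c) (volume : Measure (Fin (n + 1) → Fin n → ℝ)) =
      (ENNReal.ofReal |A.det⁻¹| ^ (n + 1)) • (volume : Measure (Fin (n + 1) → Fin n → ℝ)) := by
  set r : ℝ≥0∞ := ENNReal.ofReal |A.det⁻¹| with hr
  have hrt : r ≠ ⊤ := ENNReal.ofReal_ne_top
  haveI hs : SigmaFinite (Measure.map (Tm A c) (volume : Measure (Fin n → ℝ))) := by
    rw [Tm_map hA c]
    haveI : SFinite (volume : Measure (Fin n → ℝ)) := inferInstance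
    exact SigmaFinite.of_map _ measurable_id.aemeasurable (by
      rw [Measure.map_id]
      have h1 : r • (volume : Measure (Fin n → ℝ)) = (r.toNNReal) • (volume : Measure (Fin n → ℝ)) := by
        ext s _
        rw [Measure.smul_apply, Measure.smul_apply, ENNReal.smul_def, ENNReal.coe_toNNReal hrt]
      rw [h1]
      infer_instance)
  have h1 := Measure.pi_map_pi (X := fun _ : Fin (n + 1) => (Fin n → ℝ))
    (Y := fun _ : Fin (n + 1) => (Fin n → ℝ)) (μ := fun _ => volume) (f := fun _ => Tm A c)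
    (fun i => (Tm_cont A c).measurable.aemeasurable)
  have h2 : (volume : Measure (Fin (n + 1) → Fin n → ℝ)) = Measure.pi fun _ => volume := rfl
  rw [h2]
  refine h1.trans ?_
  refine Measure.pi_eq fun s hs => ?_
  rw [Measure.smul_apply, Measure.pi_pi, smul_eq_mul]
  have h3 : ∀ i : Fin (n + 1), (Measure.map (Tm A c) (volume : Measure (Fin n → ℝ))) (s i) =
      r * volume (s i) := by
    intro i
    rw [Tm_map hA c, Measure.smul_apply, smul_eq_mul]
  simp_rw [h3]
  rw [Finset.prod_mul_distrib, Finset.prod_const, Finset.card_univ, Fintype.card_fin]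

theorem main (hW : S_WPR) : S_HOM := by
  intro n q hq A c K hA hK
  obtain ⟨-, -, hs, -⟩ := hW n q hq
  have hd : 0 < |A.det| := abs_pos.2 hA
  set S : Set (Fin (n + 1) → Fin n → ℝ) := {x | ∀ i, x i ∈ K} with hS
  have h1 := (TT_emb hA c).setIntegral_map (μ := volume) (fun x => W q x) S
  have h2 : TT A c ⁻¹' S = {x : Fin (n + 1) → Fin n → ℝ | ∀ i, x i ∈ {x | A.mulVec x + c ∈ K}} := rfl
  have h3 : ∀ x, W q (TT A c x) = |A.det| ^ q * W q x := fun x => hs A c x
  rw [TT_map hA c, Measure.restrict_smul, integral_smul_measure, h2] at h1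
  simp_rw [h3] at h1
  rw [integral_const_mul] at h1
  have h4 : (ENNReal.ofReal |A.det⁻¹| ^ (n + 1)).toReal = (|A.det| ^ (n + 1))⁻¹ := by
    rw [ENNReal.toReal_pow, ENNReal.toReal_ofReal (abs_nonneg _), abs_inv, inv_pow]
  rw [h4, smul_eq_mul] at h1
  have h5 : (0 : ℝ) < |A.det| ^ (n + 1) := by positivity
  have h6 : |A.det| ^ ((n : ℝ) + 1 + q) = |A.det| ^ (n + 1) * |A.det| ^ q := by
    rw [Real.rpow_add hd]
    congr 1
    rw [← Real.rpow_natCast]
    congr 1
    push_cast
    ring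
  have h7 : Gq q {x | A.mulVec x + c ∈ K} =
      ∫ x in {x : Fin (n + 1) → Fin n → ℝ | ∀ i, x i ∈ {x | A.mulVec x + c ∈ K}}, W q x := rfl
  have h8 : Gq q K = ∫ x in S, W q x := rfl
  rw [h6, mul_assoc, h7, ← h1, h8, ← mul_assoc, mul_inv_cancel₀ h5.ne', one_mul]

end Pool.Agent.Helper80.SY.HOM

end
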